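import Pool.Agent.Helper81.SF.Core

/-!
# The chain `P, T P, T² P, …` in a translated lattice
-/

set_option autoImplicit false

open Finset MeasureTheory Filter Topology

namespace Pool.Agent.Helper81.SF

/-- The translated lattice: `v ≡ P₀` modulo `N`. -/
def Lat (N : ℕ) (P₀ : Fin 2 → ℤ) (v : Fin 2 → ℤ) : Prop := ∀ i, v i ≡ P₀ i [ZMOD N]

/-- The matrix of multiplication by `N`, times `M`. -/
def scal (N : ℕ) (M : Matrix (Fin 2) (Fin 2) ℤ) : Matrix (Fin 2) (Fin 2) ℤ := (N : ℤ) • M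

lemma det_scal (N : ℕ) (M : Matrix (Fin 2) (Fin 2) ℤ) : (scal N M).det = (N : ℤ) ^ 2 * M.det := by
  rw [scal, Matrix.det_smul]; simp

/-- The points `v` of the translated lattice with `|M v| ≤ X`. -/
def ptsL (N : ℕ) (P₀ : Fin 2 → ℤ) (M : Matrix (Fin 2) (Fin 2) ℤ) (X : ℕ) : Set (Fin 2 → ℤ) :=
  {v | Lat N P₀ v ∧ M.mulVec v ∈ sq X}

lemma mulVec_inj {T : Matrix (Fin 2) (Fin 2) ℤ} (hd : T.det ≠ 0) : Function.Injective T.mulVec := by
  intro v w h
  have h1 : T.mulVec (v - w) = 0 := by rw [Matrix.mulVec_sub, h, sub_self]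
  exact sub_eq_zero.1 (Matrix.eq_zero_of_mulVec_eq_zero hd h1)

lemma finite_pts (M : Matrix (Fin 2) (Fin 2) ℤ) (h : M.det ≠ 0) (X : ℕ) : (pts M X).Finite :=
  Set.Finite.preimage (mulVec_inj h).injOn (sq X).finite_toSet

lemma finite_ptsL (N : ℕ) (P₀ : Fin 2 → ℤ) (M : Matrix (Fin 2) (Fin 2) ℤ) (h : M.det ≠ 0) (X : ℕ) :
    (ptsL N P₀ M X).Finite :=
  (finite_pts M h X).subset fun _ hv => hv.2

lemma lat_iff {N : ℕ} {P₀ v : Fin 2 → ℤ} : Lat N P₀ v ↔ ∃ w : Fin 2 → ℤ, v = P₀ + (N : ℤ) • w := by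
  constructor
  · intro h
    have h2 : ∀ i, ∃ w : ℤ, v i - P₀ i = N * w := fun i => (Int.ModEq.dvd (h i).symm)
    choose w hw using h2
    refine ⟨w, funext fun i => ?_⟩
    have := hw i
    simp only [Pi.add_apply, Pi.smul_apply, smul_eq_mul]
    linarith
  · rintro ⟨w, rfl⟩ i
    simp only [Pi.add_apply, Pi.smul_apply, smul_eq_mul]
    exact (Int.modEq_iff_dvd.2 ⟨-w i, by ring⟩)

lemma shift_le (N : ℕ) (P₀ : Fin 2 → ℤ) (M : Matrix (Fin 2) (Fin 2) ℤ) (hN : 1 ≤ N) (h : M.det ≠ 0)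
    (X C : ℕ) (hC : M.mulVec P₀ ∈ sq C) :
    Nat.card (ptsL N P₀ M X) ≤ Nat.card (pts (scal N M) (X + C)) ∧
      Nat.card (pts (scal N M) X) ≤ Nat.card (ptsL N P₀ M (X + C)) := by
  have hs : (scal N M).det ≠ 0 := by
    rw [det_scal]; exact mul_ne_zero (pow_ne_zero _ (by omega)) h
  have e : ∀ w, M.mulVec (P₀ + (N : ℤ) • w) = M.mulVec P₀ + (scal N M).mulVec w := by
    intro w
    rw [Matrix.mulVec_add, scal, Matrix.smul_mulVec, Matrix.mulVec_smul]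
  have hNz : (N : ℤ) ≠ 0 := by omega
  constructor
  · have := (finite_pts _ hs (X + C)).to_subtype
    have hc : ∀ v : ptsL N P₀ M X, ∃ w : Fin 2 → ℤ, v.1 = P₀ + (N : ℤ) • w := fun v => lat_iff.1 v.2.1
    choose w hw using hc
    refine Nat.card_le_card_of_injective (fun v => (⟨w v, ?_⟩ : pts (scal N M) (X + C))) ?_
    · have h1 := v.2.2
      rw [hw v, e] at h1
      change (scal N M).mulVec (w v) ∈ sq (X + C)
      rw [mem_sq]
      rw [mem_sq] at h1 hC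
      intro i
      have a := h1 i
      have b := hC i
      simp only [Pi.add_apply] at a
      rw [abs_le] at a b ⊢
      push_cast
      constructor <;> linarith [a.1, a.2, b.1, b.2]
    · intro v v' hvv
      have : w v = w v' := congrArg Subtype.val hvv
      apply Subtype.ext
      rw [hw v, hw v', this]
  · have := (finite_ptsL N P₀ M h (X + C)).to_subtype
    refine Nat.card_le_card_of_injective
      (fun w => (⟨P₀ + (N : ℤ) • w.1, lat_iff.2 ⟨w.1, rfl⟩, ?_⟩ : ptsL N P₀ M (X + C))) ?_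
    · rw [e, mem_sq]
      have h1 : (scal N M).mulVec w.1 ∈ sq X := w.2
      rw [mem_sq] at h1 hC
      intro i
      have a := h1 i
      have b := hC i
      simp only [Pi.add_apply]
      rw [abs_le] at a b ⊢
      push_cast
      constructor <;> linarith [a.1, a.2, b.1, b.2]
    · intro w w' hww
      have h2 : P₀ + (N : ℤ) • w.1 = P₀ + (N : ℤ) • w'.1 := congrArg Subtype.val hww
      apply Subtype.ext
      exact smul_right_injective _ hNz (add_left_cancel h2)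

lemma exists_C (v : Fin 2 → ℤ) : ∃ C : ℕ, v ∈ sq C := by
  refine ⟨(v 0).natAbs + (v 1).natAbs, ?_⟩
  rw [mem_sq]
  intro i
  fin_cases i
  · simp only [Fin.zero_eta]; push_cast; linarith [abs_nonneg (v 1)]
  · simp only [Fin.mk_one]; push_cast; linarith [abs_nonneg (v 0)]

lemma tendsto_ptsL (N : ℕ) (P₀ : Fin 2 → ℤ) (M : Matrix (Fin 2) (Fin 2) ℤ) (hN : 1 ≤ N) (h : M.det ≠ 0) :
    Tendsto (fun X : ℕ => (Nat.card (ptsL N P₀ M X) : ℝ) / (X : ℝ) ^ 2) atTop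
      (𝓝 (4 / ((N : ℝ) ^ 2 * |(M.det : ℝ)|))) := by
  obtain ⟨C, hC⟩ := exists_C (M.mulVec P₀)
  have hs : (scal N M).det ≠ 0 := by
    rw [det_scal]; exact mul_ne_zero (pow_ne_zero _ (by omega)) h
  have h1 := tendsto_pts (scal N M) hs
  rw [det_scal] at h1
  have e : |(((N : ℤ) ^ 2 * M.det : ℤ) : ℝ)| = (N : ℝ) ^ 2 * |(M.det : ℝ)| := by
    push_cast; rw [abs_mul, abs_of_nonneg (by positivity : (0 : ℝ) ≤ (N : ℝ) ^ 2)]
  rw [e] at h1
  -- the ratio of the scales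
  have hr : Tendsto (fun X : ℕ => (((X + C : ℕ) : ℝ)) / (X : ℝ)) atTop (𝓝 1) := by
    have : Tendsto (fun X : ℕ => (1 : ℝ) + C / (X : ℝ)) atTop (𝓝 (1 + 0)) :=
      tendsto_const_nhds.add (tendsto_const_div_atTop_nhds_zero_nat (C : ℝ))
    rw [add_zero] at this
    refine this.congr' ?_
    filter_upwards [eventually_ge_atTop 1] with X hX
    have : (X : ℝ) ≠ 0 := by
      have : (1 : ℝ) ≤ X := by exact_mod_cast hX
      positivity
    push_cast
    field_simp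
  have hup : Tendsto (fun X : ℕ => (Nat.card (pts (scal N M) (X + C)) : ℝ) / (X : ℝ) ^ 2) atTop
      (𝓝 (4 / ((N : ℝ) ^ 2 * |(M.det : ℝ)|))) := by
    have h2 := ((tendsto_add_atTop_iff_nat C).2 h1).mul (hr.pow 2)
    rw [one_pow, mul_one] at h2
    refine h2.congr' ?_
    filter_upwards [eventually_ge_atTop 1] with X hX
    have hx : (1 : ℝ) ≤ X := by exact_mod_cast hX
    have h3 : ((X + C : ℕ) : ℝ) ≠ 0 := by push_cast; positivity
    have h4 : (X : ℝ) ≠ 0 := by positivity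
    field_simp
  have hlo : Tendsto (fun X : ℕ => (Nat.card (pts (scal N M) (X - C)) : ℝ) / (X : ℝ) ^ 2) atTop
      (𝓝 (4 / ((N : ℝ) ^ 2 * |(M.det : ℝ)|))) := by
    rw [← tendsto_add_atTop_iff_nat C]
    have hr2 : Tendsto (fun X : ℕ => (X : ℝ) / ((X + C : ℕ) : ℝ)) atTop (𝓝 1) := by
      have := hr.inv₀ one_ne_zero
      rw [inv_one] at this
      refine this.congr fun X => ?_
      rw [inv_div]
    have h2 := h1.mul (hr2.pow 2)
    rw [one_pow, mul_one] at h2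
    refine h2.congr' ?_
    filter_upwards [eventually_ge_atTop 1] with X hX
    have hx : (1 : ℝ) ≤ X := by exact_mod_cast hX
    have h3 : ((X + C : ℕ) : ℝ) ≠ 0 := by push_cast; positivity
    have h4 : (X : ℝ) ≠ 0 := by positivity
    rw [Nat.add_sub_cancel]
    field_simp
  refine tendsto_of_tendsto_of_tendsto_of_le_of_le' hlo hup ?_ ?_
  · filter_upwards [eventually_ge_atTop C] with X hX
    have := (shift_le N P₀ M hN h (X - C) C hC).2
    rw [Nat.sub_add_cancel hX] at this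
    gcongr
  · filter_upwards with X
    have := (shift_le N P₀ M hN h X C hC).1
    gcongr

/-- `T` does not decrease the max norm. -/
def Expanding (T : Matrix (Fin 2) (Fin 2) ℤ) : Prop :=
  ∀ (v : Fin 2 → ℤ) (X : ℕ), T.mulVec v ∈ sq X → v ∈ sq X

open Classical in
/-- The points `v` of the translated lattice in the square with `|T^j v| ≤ X`. -/
noncomputable def B (N : ℕ) (P₀ : Fin 2 → ℤ) (T : Matrix (Fin 2) (Fin 2) ℤ) (j X : ℕ) : Finset (Fin 2 → ℤ) :=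
  (sq X).filter (fun v => Lat N P₀ v ∧ (T ^ j).mulVec v ∈ sq X)

variable {N : ℕ} {P₀ : Fin 2 → ℤ} {T : Matrix (Fin 2) (Fin 2) ℤ}

lemma pow_exp (hT : Expanding T) (j : ℕ) : Expanding (T ^ j) := by
  induction j with
  | zero => intro v X h; simpa using h
  | succ j ih =>
    intro v X h
    rw [pow_succ, ← Matrix.mulVec_mulVec] at h
    exact hT v X (ih _ X h)

lemma mem_B (hT : Expanding T) {j X : ℕ} {v : Fin 2 → ℤ} :
    v ∈ B N P₀ T j X ↔ Lat N P₀ v ∧ (T ^ j).mulVec v ∈ sq X := by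
  classical
  simp only [B, mem_filter]
  exact ⟨fun h => h.2, fun h => ⟨pow_exp hT j v X h.2, h⟩⟩

lemma card_B (hT : Expanding T) (j X : ℕ) : (B N P₀ T j X).card = Nat.card (ptsL N P₀ (T ^ j) X) := by
  have : ptsL N P₀ (T ^ j) X = ↑(B N P₀ T j X) := by
    ext v
    rw [Finset.mem_coe, mem_B hT]
    rfl
  rw [this]
  simp

lemma B_anti (hT : Expanding T) (j X : ℕ) : B N P₀ T (j + 1) X ⊆ B N P₀ T j X := by
  intro v hv
  rw [mem_B hT] at hv ⊢
  refine ⟨hv.1, ?_⟩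
  have h2 := hv.2
  rw [pow_succ', ← Matrix.mulVec_mulVec] at h2
  exact hT _ X h2

open Classical in
/-- The points of `B_j` which are not in the image of the translated lattice. -/
noncomputable def Out (N : ℕ) (P₀ : Fin 2 → ℤ) (T : Matrix (Fin 2) (Fin 2) ℤ) (j X : ℕ) :
    Finset (Fin 2 → ℤ) :=
  (B N P₀ T j X).filter (fun v => ¬ ∃ w, Lat N P₀ w ∧ T.mulVec w = v)

lemma Out_anti (hT : Expanding T) (j X : ℕ) : Out N P₀ T (j + 1) X ⊆ Out N P₀ T j X := by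
  classical
  exact filter_subset_filter _ (B_anti hT j X)

lemma sum_B {f : (Fin 2 → ℤ) → ℝ} (hT : Expanding T) (hd : T.det ≠ 0)
    (hL : ∀ v, Lat N P₀ v → Lat N P₀ (T.mulVec v)) (j X : ℕ) :
    ∑ v ∈ B N P₀ T j X, f v = ∑ v ∈ Out N P₀ T j X, f v + ∑ w ∈ B N P₀ T (j + 1) X, f (T.mulVec w) := by
  classical
  have h0 := sum_filter_add_sum_filter_not (B N P₀ T j X) (fun v => ∃ w, Lat N P₀ w ∧ T.mulVec w = v) f
  have hO : ∑ v ∈ Out N P₀ T j X, f v =
      ∑ v ∈ (B N P₀ T j X).filter (fun v => ¬ ∃ w, Lat N P₀ w ∧ T.mulVec w = v), f v := by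
    unfold Out
    refine sum_congr ?_ fun _ _ => rfl
    ext v; simp
  have hA : ∑ v ∈ (B N P₀ T j X).filter (fun v => ∃ w, Lat N P₀ w ∧ T.mulVec w = v), f v =
      ∑ w ∈ B N P₀ T (j + 1) X, f (T.mulVec w) := by
    rw [← sum_image (f := f) (g := T.mulVec) (s := B N P₀ T (j + 1) X) ((mulVec_inj hd).injOn)]
    refine sum_congr ?_ fun _ _ => rfl
    ext v
    simp only [mem_filter, mem_image]
    constructor
    · rintro ⟨hv, w, hw, rfl⟩
      refine ⟨w, ?_, rfl⟩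
      rw [mem_B hT] at hv ⊢
      rw [pow_succ, ← Matrix.mulVec_mulVec]
      exact ⟨hw, hv.2⟩
    · rintro ⟨w, hw, rfl⟩
      rw [mem_B hT] at hw
      refine ⟨?_, w, hw.1, rfl⟩
      rw [mem_B hT]
      rw [pow_succ, ← Matrix.mulVec_mulVec] at hw
      exact ⟨hL w hw.1, hw.2⟩
  rw [hO, ← hA]
  linarith

lemma card_Out (hT : Expanding T) (hd : T.det ≠ 0) (hL : ∀ v, Lat N P₀ v → Lat N P₀ (T.mulVec v)) (j X : ℕ) :
    ((Out N P₀ T j X).card : ℝ) = (B N P₀ T j X).card - (B N P₀ T (j + 1) X).card := by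
  have h := sum_B (f := fun _ => (1 : ℝ)) hT hd hL j X
  simp only [sum_const, nsmul_eq_mul, mul_one] at h
  linarith

/-- One double step. -/
lemma step {h : (Fin 2 → ℤ) → ℝ} (hT : Expanding T) (hd : T.det ≠ 0)
    (hL : ∀ v, Lat N P₀ v → Lat N P₀ (T.mulVec v)) (h1 : ∀ v, |h v| ≤ 1)
    (hs : ∀ v, h (T.mulVec v) = - h v) (j X : ℕ) :
    |∑ v ∈ B N P₀ T j X, h v| ≤ ((B N P₀ T j X).card - 2 * (B N P₀ T (j + 1) X).card +
      (B N P₀ T (j + 2) X).card) + |∑ v ∈ B N P₀ T (j + 2) X, h v| := by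
  classical
  have e1 := sum_B (f := h) hT hd hL j X
  have e2 := sum_B (f := h) hT hd hL (j + 1) X
  simp only [hs, sum_neg_distrib] at e1 e2
  have e3 : ∑ v ∈ Out N P₀ T j X, h v = ∑ v ∈ Out N P₀ T j X \ Out N P₀ T (j + 1) X, h v +
      ∑ v ∈ Out N P₀ T (j + 1) X, h v := (sum_sdiff (Out_anti hT j X)).symm
  have e4 : ∑ v ∈ B N P₀ T j X, h v = ∑ v ∈ Out N P₀ T j X \ Out N P₀ T (j + 1) X, h v +
      ∑ v ∈ B N P₀ T (j + 2) X, h v := by
    rw [e1, e2, e3]; ring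
  have e5 : |∑ v ∈ Out N P₀ T j X \ Out N P₀ T (j + 1) X, h v| ≤
      (Out N P₀ T j X).card - (Out N P₀ T (j + 1) X).card := by
    refine (abs_sum_le_sum_abs _ _).trans ((sum_le_sum fun v _ => h1 v).trans ?_)
    rw [sum_const, nsmul_eq_mul, mul_one, card_sdiff_of_subset (Out_anti hT j X),
      Nat.cast_sub (card_le_card (Out_anti hT j X))]
  rw [card_Out hT hd hL, card_Out hT hd hL] at e5
  rw [e4]
  refine (abs_add_le _ _).trans ?_
  linarith

lemma steps {h : (Fin 2 → ℤ) → ℝ} (hT : Expanding T) (hd : T.det ≠ 0)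
    (hL : ∀ v, Lat N P₀ v → Lat N P₀ (T.mulVec v)) (h1 : ∀ v, |h v| ≤ 1)
    (hs : ∀ v, h (T.mulVec v) = - h v) (X I : ℕ) :
    |∑ v ∈ B N P₀ T 0 X, h v| ≤ ∑ i ∈ range I, (((B N P₀ T (2 * i) X).card : ℝ) -
      2 * (B N P₀ T (2 * i + 1) X).card + (B N P₀ T (2 * i + 2) X).card) +
      |∑ v ∈ B N P₀ T (2 * I) X, h v| := by
  induction I with
  | zero => simp
  | succ I ih =>
    rw [sum_range_succ]
    have := step hT hd hL h1 hs (2 * I) X
    have e : 2 * (I + 1) = 2 * I + 2 := by ring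
    rw [e]
    linarith

lemma geom (q : ℝ) (h0 : 0 ≤ q) (I : ℕ) :
    ∑ i ∈ range I, (q ^ (2 * i) - 2 * q ^ (2 * i + 1) + q ^ (2 * i + 2)) =
      (1 - q) / (1 + q) * (1 - q ^ (2 * I)) := by
  have h1 : (1 + q) ≠ 0 := by positivity
  induction I with
  | zero => simp
  | succ I ih =>
    rw [sum_range_succ, ih]
    field_simp
    ring

lemma tendsto_B (hN : 1 ≤ N) (hT : Expanding T) (hd : T.det ≠ 0) (j : ℕ) :
    Tendsto (fun X : ℕ => ((B N P₀ T j X).card : ℝ) / (X : ℝ) ^ 2) atTop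
      (𝓝 (4 / (N : ℝ) ^ 2 * (1 / |(T.det : ℝ)|) ^ j)) := by
  have h := tendsto_ptsL N P₀ (T ^ j) hN (by rw [Matrix.det_pow]; exact pow_ne_zero _ hd)
  rw [Matrix.det_pow] at h
  rw [Int.cast_pow, abs_pow] at h
  have hN0 : (N : ℝ) ≠ 0 := by
    have : (1 : ℝ) ≤ N := by exact_mod_cast hN
    positivity
  have hd0 : |(T.det : ℝ)| ≠ 0 := by
    rw [abs_ne_zero]; exact_mod_cast hd
  have e : (4 : ℝ) / ((N : ℝ) ^ 2 * |(T.det : ℝ)| ^ j) = 4 / (N : ℝ) ^ 2 * (1 / |(T.det : ℝ)|) ^ j := by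
    rw [one_div, inv_pow]; field_simp
  rw [e] at h
  refine h.congr fun X => ?_
  rw [card_B hT]

/-- If `h (T v) = - h v` for an integral matrix `T` which does not decrease the max norm, `m = |det T| ≥ 2`, `|h| ≤ 1`,
then the sum of `h` over the square is at most `(m - 1) / (m + 1) + ε` times the number of points. -/
theorem main {h : (Fin 2 → ℤ) → ℝ} (hN : 1 ≤ N) (hT : Expanding T) (hm : 2 ≤ |T.det|)
    (hL : ∀ v, Lat N P₀ v → Lat N P₀ (T.mulVec v)) (h1 : ∀ v, |h v| ≤ 1)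
    (hs : ∀ v, h (T.mulVec v) = - h v) (ε : ℝ) (hε : 0 < ε) :
    ∃ X₀ : ℕ, ∀ X : ℕ, X₀ ≤ X → |∑ v ∈ B N P₀ T 0 X, h v| ≤
      ((((|T.det| : ℤ) : ℝ) - 1) / (((|T.det| : ℤ) : ℝ) + 1) + ε) * (B N P₀ T 0 X).card := by
  have hd : T.det ≠ 0 := by
    intro h0; rw [h0, abs_zero] at hm; omega
  have hN0 : (0 : ℝ) < N := by exact_mod_cast hN
  set m : ℝ := ((|T.det| : ℤ) : ℝ) with hmdef
  have hm2 : (2 : ℝ) ≤ m := by rw [hmdef]; exact_mod_cast hm
  have hma : |(T.det : ℝ)| = m := by rw [hmdef]; push_cast; rfl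
  set q : ℝ := 1 / m with hq
  set κ : ℝ := 4 / (N : ℝ) ^ 2 with hκ
  have hκ0 : 0 < κ := by positivity
  have hq0 : 0 ≤ q := by positivity
  have hq1 : q < 1 := by rw [hq, div_lt_one (by linarith)]; linarith
  obtain ⟨I, hI⟩ := exists_pow_lt_of_lt_one (show (0 : ℝ) < ε / 4 by linarith) (show q ^ 2 < 1 by nlinarith)
  rw [← pow_mul] at hI
  have hB : ∀ j, Tendsto (fun X : ℕ => ((B N P₀ T j X).card : ℝ) / (X : ℝ) ^ 2) atTop (𝓝 (κ * q ^ j)) := by
    intro j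
    have := tendsto_B (P₀ := P₀) hN hT hd j
    rwa [hma] at this
  have hlim : Tendsto (fun X : ℕ => (∑ i ∈ range I, (((B N P₀ T (2 * i) X).card : ℝ) / (X : ℝ) ^ 2 -
      2 * ((B N P₀ T (2 * i + 1) X).card / (X : ℝ) ^ 2) + (B N P₀ T (2 * i + 2) X).card / (X : ℝ) ^ 2)) +
      (B N P₀ T (2 * I) X).card / (X : ℝ) ^ 2) atTop
      (𝓝 (∑ i ∈ range I, (κ * q ^ (2 * i) - 2 * (κ * q ^ (2 * i + 1)) + κ * q ^ (2 * i + 2)) +
        κ * q ^ (2 * I))) := by
    refine Tendsto.add (tendsto_finsetSum _ fun i _ => ?_) (hB _)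
    exact ((hB _).sub ((hB _).const_mul 2)).add (hB _)
  have h3 : 0 ≤ (m - 1) / (m + 1) := div_nonneg (by linarith) (by linarith)
  have hval : ∑ i ∈ range I, (κ * q ^ (2 * i) - 2 * (κ * q ^ (2 * i + 1)) + κ * q ^ (2 * i + 2)) +
      κ * q ^ (2 * I) < κ * ((m - 1) / (m + 1) + ε / 2) := by
    have e1 : ∑ i ∈ range I, (κ * q ^ (2 * i) - 2 * (κ * q ^ (2 * i + 1)) + κ * q ^ (2 * i + 2)) =
        κ * ∑ i ∈ range I, (q ^ (2 * i) - 2 * q ^ (2 * i + 1) + q ^ (2 * i + 2)) := by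
      rw [mul_sum]; exact sum_congr rfl fun _ _ => by ring
    have e2 : (1 - q) / (1 + q) = (m - 1) / (m + 1) := by
      rw [hq]; field_simp
    rw [e1, geom q hq0, e2, ← mul_add]
    refine mul_lt_mul_of_pos_left ?_ hκ0
    have h4 : 0 ≤ q ^ (2 * I) := by positivity
    nlinarith [mul_nonneg h3 h4]
  have hval2 : κ * ((m - 1) / (m + 1) + ε / 2) < ((m - 1) / (m + 1) + ε) * (κ * q ^ 0) := by
    rw [pow_zero, mul_one]
    nlinarith
  have hev := ((hlim.eventually (gt_mem_nhds hval)).and (((hB 0).const_mul ((m - 1) / (m + 1) + ε)).eventually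
    (lt_mem_nhds hval2))).and (eventually_ge_atTop 1)
  obtain ⟨X₀, hX₀⟩ := eventually_atTop.1 hev
  refine ⟨X₀, fun X hX => ?_⟩
  obtain ⟨⟨hb, hc⟩, hX1⟩ := hX₀ X hX
  have hX0 : (0 : ℝ) < (X : ℝ) ^ 2 := by
    have : (1 : ℝ) ≤ X := by exact_mod_cast hX1
    positivity
  have hs2 := steps hT hd hL h1 hs X I
  have hlast : |∑ v ∈ B N P₀ T (2 * I) X, h v| ≤ (B N P₀ T (2 * I) X).card := by
    refine (abs_sum_le_sum_abs _ _).trans ((sum_le_sum fun v _ => h1 v).trans ?_)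
    rw [sum_const, nsmul_eq_mul, mul_one]
  have e3 : (∑ i ∈ range I, (((B N P₀ T (2 * i) X).card : ℝ) / (X : ℝ) ^ 2 -
      2 * ((B N P₀ T (2 * i + 1) X).card / (X : ℝ) ^ 2) + (B N P₀ T (2 * i + 2) X).card / (X : ℝ) ^ 2)) +
      (B N P₀ T (2 * I) X).card / (X : ℝ) ^ 2 = (∑ i ∈ range I, (((B N P₀ T (2 * i) X).card : ℝ) -
        2 * (B N P₀ T (2 * i + 1) X).card + (B N P₀ T (2 * i + 2) X).card) +
        (B N P₀ T (2 * I) X).card) / (X : ℝ) ^ 2 := by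
    rw [add_div, sum_div]
    congr 1
    exact sum_congr rfl fun _ _ => by ring
  rw [e3] at hb
  have h7 := hb.trans hc
  rw [div_lt_iff₀ hX0, mul_div_assoc', div_mul_cancel₀ _ hX0.ne'] at h7
  linarith

end Pool.Agent.Helper81.SF
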