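import Mathlib

/-!
# Functions on `ℤ²` which change sign under an expanding integral matrix
-/

set_option autoImplicit false

open Finset MeasureTheory Filter Topology
open scoped Pointwise

namespace Pool.Agent.Helper81.SF

/-- The lattice points of the square `|v| ≤ X`. -/
noncomputable def sq (X : ℕ) : Finset (Fin 2 → ℤ) := Finset.Icc (fun _ => -(X : ℤ)) (fun _ => (X : ℤ))

lemma mem_sq {X : ℕ} {v : Fin 2 → ℤ} : v ∈ sq X ↔ ∀ i, |v i| ≤ (X : ℤ) := by
  simp only [sq, Finset.mem_Icc, Pi.le_def, abs_le]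
  exact ⟨fun ⟨h1, h2⟩ i => ⟨h1 i, h2 i⟩, fun h => ⟨fun i => (h i).1, fun i => (h i).2⟩⟩

/-- The real parallelogram of the `x` with `|M x| ≤ 1`. -/
def par (M : Matrix (Fin 2) (Fin 2) ℤ) : Set (Fin 2 → ℝ) :=
  (Matrix.toLin' (M.map (Int.cast : ℤ → ℝ))) ⁻¹' (Set.Icc (fun _ => -1) (fun _ => 1))

lemma det_map (M : Matrix (Fin 2) (Fin 2) ℤ) :
    LinearMap.det (Matrix.toLin' (M.map (Int.cast : ℤ → ℝ))) = (M.det : ℝ) := by
  rw [LinearMap.det_toLin']
  exact (RingHom.map_det (Int.castRingHom ℝ) M).symm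

lemma volume_par (M : Matrix (Fin 2) (Fin 2) ℤ) (h : M.det ≠ 0) :
    volume.real (par M) = 4 / |(M.det : ℝ)| := by
  have hd : LinearMap.det (Matrix.toLin' (M.map (Int.cast : ℤ → ℝ))) ≠ 0 := by
    rw [det_map]; exact_mod_cast h
  rw [par, Measure.real, Measure.addHaar_preimage_linearMap volume hd, det_map, Real.volume_Icc_pi,
    ENNReal.toReal_mul, ENNReal.toReal_ofReal (abs_nonneg _), abs_inv]
  simp only [sub_neg_eq_add, Fin.prod_univ_two]
  rw [← ENNReal.ofReal_mul (by norm_num), ENNReal.toReal_ofReal (by norm_num)]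
  norm_num
  ring

lemma isClosed_par (M : Matrix (Fin 2) (Fin 2) ℤ) : IsClosed (par M) :=
  isClosed_Icc.preimage (LinearMap.continuous_of_finiteDimensional _)

lemma convex_par (M : Matrix (Fin 2) (Fin 2) ℤ) : Convex ℝ (par M) :=
  (convex_Icc _ _).linear_preimage _

lemma bounded_par (M : Matrix (Fin 2) (Fin 2) ℤ) (h : M.det ≠ 0) :
    Bornology.IsBounded (par M) := by
  have hd : LinearMap.det (Matrix.toLin' (M.map (Int.cast : ℤ → ℝ))) ≠ 0 := by
    rw [det_map]; exact_mod_cast h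
  set e := LinearMap.equivOfDetNeZero _ hd with he
  have h1 : par M = e.symm '' (Set.Icc (fun _ => -1) (fun _ => 1)) := by
    rw [LinearEquiv.image_symm_eq_preimage]
    rfl
  rw [h1]
  exact (isCompact_Icc.image (LinearMap.continuous_of_finiteDimensional
    (e.symm : (Fin 2 → ℝ) →ₗ[ℝ] (Fin 2 → ℝ)))).isBounded

/-- The points `v` with `|M v| ≤ X`. -/
def pts (M : Matrix (Fin 2) (Fin 2) ℤ) (X : ℕ) : Set (Fin 2 → ℤ) := {v | M.mulVec v ∈ sq X}

lemma mem_L {y : Fin 2 → ℝ} :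
    y ∈ (Submodule.span ℤ (Set.range (Pi.basisFun ℝ (Fin 2))) : Set (Fin 2 → ℝ)) ↔
      ∃ v : Fin 2 → ℤ, y = fun i => (v i : ℝ) := by
  rw [SetLike.mem_coe, Module.Basis.mem_span_iff_repr_mem]
  constructor
  · intro h
    choose v hv using h
    refine ⟨v, funext fun i => ?_⟩
    have := hv i
    simpa using this.symm
  · rintro ⟨v, rfl⟩ i
    exact ⟨v i, by simp⟩

lemma map_mulVec (M : Matrix (Fin 2) (Fin 2) ℤ) (v : Fin 2 → ℤ) (i : Fin 2) :
    ((M.mulVec v i : ℤ) : ℝ) = (M.map (Int.cast : ℤ → ℝ)).mulVec (fun i => (v i : ℝ)) i := by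
  simp [Matrix.mulVec, dotProduct]

lemma card_pts (M : Matrix (Fin 2) (Fin 2) ℤ) (X : ℕ) (hX : 1 ≤ X) :
    Nat.card (pts M X) = Nat.card ↑(par M ∩ (X : ℝ)⁻¹ •
      (Submodule.span ℤ (Set.range (Pi.basisFun ℝ (Fin 2))) : Set (Fin 2 → ℝ))) := by
  have hX0 : (0 : ℝ) < X := by exact_mod_cast hX
  have key : ∀ v : Fin 2 → ℤ, v ∈ pts M X ↔ (X : ℝ)⁻¹ • (fun i => (v i : ℝ)) ∈ par M := by
    intro v
    simp only [pts, Set.mem_ofPred_eq, mem_sq, par, Set.mem_preimage, map_smul, Matrix.toLin'_apply,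
      Set.mem_Icc, Pi.le_def, Pi.smul_apply, smul_eq_mul]
    constructor
    · intro h
      have h2 : ∀ i, |(M.map (Int.cast : ℤ → ℝ)).mulVec (fun i => (v i : ℝ)) i| ≤ (X : ℝ) := by
        intro i
        rw [← map_mulVec]
        exact_mod_cast h i
      refine ⟨fun i => ?_, fun i => ?_⟩
      · have := (abs_le.1 (h2 i)).1
        rw [inv_mul_eq_div, le_div_iff₀ hX0]; linarith
      · have := (abs_le.1 (h2 i)).2
        rw [inv_mul_eq_div, div_le_iff₀ hX0]; linarith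
    · rintro ⟨h1, h2⟩ i
      have a := h1 i
      have b := h2 i
      rw [inv_mul_eq_div, le_div_iff₀ hX0, ← map_mulVec] at a
      rw [inv_mul_eq_div, div_le_iff₀ hX0, ← map_mulVec] at b
      rw [abs_le]
      constructor
      · have : (-(X : ℝ)) ≤ ((M.mulVec v i : ℤ) : ℝ) := by linarith
        exact_mod_cast this
      · have : ((M.mulVec v i : ℤ) : ℝ) ≤ (X : ℝ) := by linarith
        exact_mod_cast this
  refine Nat.card_congr (Equiv.ofBijective
    (fun v => ⟨(X : ℝ)⁻¹ • (fun i => (v.1 i : ℝ)), (key v.1).1 v.2,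
      Set.smul_mem_smul_set (mem_L.2 ⟨v.1, rfl⟩)⟩) ⟨?_, ?_⟩)
  · intro v w hvw
    have h := congrArg Subtype.val hvw
    apply Subtype.ext
    funext i
    have hi := congrFun h i
    simp only [Pi.smul_apply, smul_eq_mul] at hi
    have := mul_left_cancel₀ (inv_ne_zero hX0.ne') hi
    exact_mod_cast this
  · rintro ⟨x, hx1, hx2⟩
    obtain ⟨y, hy, rfl⟩ := hx2
    obtain ⟨v, rfl⟩ := mem_L.1 hy
    exact ⟨⟨v, (key v).2 hx1⟩, rfl⟩

lemma tendsto_pts (M : Matrix (Fin 2) (Fin 2) ℤ) (h : M.det ≠ 0) :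
    Tendsto (fun X : ℕ => (Nat.card (pts M X) : ℝ) / (X : ℝ) ^ 2) atTop (𝓝 (4 / |(M.det : ℝ)|)) := by
  have h1 := tendsto_card_div_pow_atTop_volume (par M) (bounded_par M h)
    (isClosed_par M).measurableSet ((convex_par M).addHaar_frontier volume)
  rw [volume_par M h] at h1
  refine h1.congr' ?_
  filter_upwards [eventually_ge_atTop 1] with X hX
  rw [card_pts M X hX]
  simp

end Pool.Agent.Helper81.SF
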