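import Pool.Agent.Helper81.SF.Chain

/-!
# The general bound
-/

set_option autoImplicit false

open Finset MeasureTheory Filter Topology

namespace Pool.Agent.Helper81.SF

open Classical in
/-- The points of the translated lattice in the square `|v| ≤ X`. -/
noncomputable def LX (N : ℕ) (P₀ : Fin 2 → ℤ) (X : ℕ) : Finset (Fin 2 → ℤ) := (sq X).filter (fun v => Lat N P₀ v)

variable {N : ℕ} {P₀ : Fin 2 → ℤ} {T : Matrix (Fin 2) (Fin 2) ℤ}

lemma mem_LX {X : ℕ} {v : Fin 2 → ℤ} : v ∈ LX N P₀ X ↔ v ∈ sq X ∧ Lat N P₀ v := by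
  classical
  simp only [LX, mem_filter]

lemma B_zero (X : ℕ) : B N P₀ T 0 X = LX N P₀ X := by
  classical
  ext v
  simp only [B, mem_filter, mem_LX, pow_zero, Matrix.one_mulVec]
  tauto

lemma card_LX (X : ℕ) : (LX N P₀ X).card = Nat.card (ptsL N P₀ 1 X) := by
  have : ptsL N P₀ 1 X = ↑(LX N P₀ X) := by
    ext v
    rw [Finset.mem_coe, mem_LX]
    change (Lat N P₀ v ∧ (1 : Matrix (Fin 2) (Fin 2) ℤ).mulVec v ∈ sq X) ↔ _
    rw [Matrix.one_mulVec]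
    tauto
  rw [this]
  simp

lemma tendsto_LX (hN : 1 ≤ N) :
    Tendsto (fun X : ℕ => ((LX N P₀ X).card : ℝ) / (X : ℝ) ^ 2) atTop (𝓝 (4 / (N : ℝ) ^ 2)) := by
  have h := tendsto_ptsL N P₀ 1 hN (by simp)
  simp only [Matrix.det_one, Int.cast_one, abs_one, mul_one] at h
  refine h.congr fun X => ?_
  rw [card_LX]

open Classical in
/-- The points of the small square of the translated lattice outside the image of the translated lattice. -/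
noncomputable def D (N : ℕ) (P₀ : Fin 2 → ℤ) (T : Matrix (Fin 2) (Fin 2) ℤ) (Y : ℕ) : Finset (Fin 2 → ℤ) :=
  (LX N P₀ Y).filter (fun v => ¬ ∃ w, Lat N P₀ w ∧ T.mulVec w = v)

lemma mem_D {Y : ℕ} {v : Fin 2 → ℤ} :
    v ∈ D N P₀ T Y ↔ v ∈ LX N P₀ Y ∧ ¬ ∃ w, Lat N P₀ w ∧ T.mulVec w = v := by
  classical
  simp only [D, mem_filter]

lemma card_D (hd : T.det ≠ 0) (hL : ∀ v, Lat N P₀ v → Lat N P₀ (T.mulVec v)) (Y : ℕ) :
    ((D N P₀ T Y).card : ℝ) = (LX N P₀ Y).card - Nat.card (ptsL N P₀ T Y) := by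
  classical
  have hfin := finite_ptsL N P₀ T hd Y
  have h1 : (LX N P₀ Y).filter (fun v => ∃ w, Lat N P₀ w ∧ T.mulVec w = v) =
      hfin.toFinset.image T.mulVec := by
    ext v
    simp only [mem_filter, mem_image, Set.Finite.mem_toFinset]
    constructor
    · rintro ⟨hv, w, hw, rfl⟩
      exact ⟨w, ⟨hw, (mem_LX.1 hv).1⟩, rfl⟩
    · rintro ⟨w, ⟨hw1, hw2⟩, rfl⟩
      exact ⟨mem_LX.2 ⟨hw2, hL w hw1⟩, w, hw1, rfl⟩
  have h2 := Finset.card_filter_add_card_filter_not (s := LX N P₀ Y) (fun v => ∃ w, Lat N P₀ w ∧ T.mulVec w = v)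
  rw [h1, card_image_of_injective _ (mulVec_inj hd)] at h2
  have h3 : hfin.toFinset.card = Nat.card (ptsL N P₀ T Y) := by
    rw [Nat.card_eq_card_finite_toFinset hfin]
  have h4 : (D N P₀ T Y).card = #{v ∈ LX N P₀ Y | ¬ ∃ w, Lat N P₀ w ∧ T.mulVec w = v} := by
    congr 1
  rw [h3, ← h4] at h2
  have h5 : (Nat.card (ptsL N P₀ T Y) : ℝ) + (D N P₀ T Y).card = (LX N P₀ Y).card := by exact_mod_cast h2
  linarith

lemma sum_le {h : (Fin 2 → ℤ) → ℝ} (hd : T.det ≠ 0)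
    (hL : ∀ v, Lat N P₀ v → Lat N P₀ (T.mulVec v)) (h1 : ∀ v, |h v| ≤ 1)
    (hs : ∀ v, h (T.mulVec v) = - h v) {R : ℕ}
    (hTR : ∀ v X, v ∈ sq X → T.mulVec v ∈ sq (R * X)) (X : ℕ) :
    |∑ v ∈ LX N P₀ X, h v| ≤ (LX N P₀ X).card - 2 * (D N P₀ T (X / R)).card := by
  classical
  have hRX : R * (X / R) ≤ X := Nat.mul_div_le X R
  have hmono : ∀ {A C : ℕ}, A ≤ C → ∀ v, v ∈ sq A → v ∈ sq C := by
    intro A C hAC v hv
    rw [mem_sq] at hv ⊢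
    intro i
    exact (hv i).trans (by exact_mod_cast hAC)
  have hs1 : D N P₀ T (X / R) ⊆ LX N P₀ X := by
    intro v hv
    have := mem_LX.1 (mem_D.1 hv).1
    exact mem_LX.2 ⟨hmono (Nat.div_le_self X R) v this.1, this.2⟩
  have hs2 : (D N P₀ T (X / R)).image T.mulVec ⊆ LX N P₀ X := by
    intro v hv
    obtain ⟨w, hw, rfl⟩ := mem_image.1 hv
    have := mem_LX.1 (mem_D.1 hw).1
    exact mem_LX.2 ⟨hmono hRX _ (hTR _ _ this.1), hL w this.2⟩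
  have hdis : Disjoint (D N P₀ T (X / R)) ((D N P₀ T (X / R)).image T.mulVec) := by
    rw [Finset.disjoint_left]
    intro v hv hv2
    obtain ⟨w, hw, rfl⟩ := mem_image.1 hv2
    exact (mem_D.1 hv).2 ⟨w, (mem_LX.1 (mem_D.1 hw).1).2, rfl⟩
  set U := D N P₀ T (X / R) ∪ (D N P₀ T (X / R)).image T.mulVec with hU
  have hUs : U ⊆ LX N P₀ X := union_subset hs1 hs2
  have hcU : U.card = 2 * (D N P₀ T (X / R)).card := by
    rw [hU, card_union_of_disjoint hdis, card_image_of_injective _ (mulVec_inj hd)]; ring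
  have hsU : ∑ v ∈ U, h v = 0 := by
    rw [hU, sum_union hdis, sum_image ((mulVec_inj hd).injOn), ← sum_add_distrib]
    exact sum_eq_zero fun v _ => by rw [hs]; ring
  rw [← sum_sdiff hUs, hsU, add_zero]
  refine (abs_sum_le_sum_abs _ _).trans ((sum_le_sum fun v _ => h1 v).trans ?_)
  rw [sum_const, nsmul_eq_mul, mul_one, card_sdiff_of_subset hUs, Nat.cast_sub (card_le_card hUs), hcU]
  push_cast
  exact le_rfl

lemma tendsto_div {R : ℕ} (hR : 1 ≤ R) :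
    Tendsto (fun X : ℕ => (((X / R : ℕ) : ℝ)) / (X : ℝ)) atTop (𝓝 (1 / (R : ℝ))) := by
  have hR0 : (0 : ℝ) < R := by exact_mod_cast hR
  have h0 : Tendsto (fun X : ℕ => ((X % R : ℕ) : ℝ) / (X : ℝ)) atTop (𝓝 0) := by
    refine squeeze_zero (fun X => by positivity) (fun X => ?_)
      (tendsto_const_div_atTop_nhds_zero_nat (R : ℝ))
    have : ((X % R : ℕ) : ℝ) ≤ R := by exact_mod_cast (Nat.mod_lt X (by omega)).le
    gcongr
  have h1 := (h0.const_sub 1).div_const (R : ℝ)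
  rw [sub_zero] at h1
  refine h1.congr' ?_
  filter_upwards [eventually_ge_atTop 1] with X hX
  have hX0 : (0 : ℝ) < X := by exact_mod_cast hX
  have e : (R : ℝ) * ((X / R : ℕ) : ℝ) + ((X % R : ℕ) : ℝ) = X := by
    exact_mod_cast Nat.div_add_mod X R
  field_simp
  linarith

lemma tendsto_comp_div {g : ℕ → ℝ} {c : ℝ} {R : ℕ} (hR : 1 ≤ R)
    (hg : Tendsto (fun X : ℕ => g X / (X : ℝ) ^ 2) atTop (𝓝 c)) :
    Tendsto (fun X : ℕ => g (X / R) / (X : ℝ) ^ 2) atTop (𝓝 (c / (R : ℝ) ^ 2)) := by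
  have hR0 : (0 : ℝ) < R := by exact_mod_cast hR
  have ht : Tendsto (fun X : ℕ => X / R) atTop atTop := Nat.tendsto_div_const_atTop (by omega)
  have h1 := (hg.comp ht).mul ((tendsto_div hR).pow 2)
  have e : c * (1 / (R : ℝ)) ^ 2 = c / (R : ℝ) ^ 2 := by field_simp
  rw [e] at h1
  refine h1.congr' ?_
  filter_upwards [eventually_ge_atTop R] with X hX
  have hX0 : (0 : ℝ) < X := by
    have : 1 ≤ X := by omega
    exact_mod_cast this
  have hY0 : (0 : ℝ) < ((X / R : ℕ) : ℝ) := by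
    have : 0 < X / R := Nat.div_pos hX (by omega)
    exact_mod_cast this
  simp only [Function.comp]
  field_simp

/-- The general bound, for a matrix which multiplies the max norm by at most `R`. -/
theorem gen {h : (Fin 2 → ℤ) → ℝ} (hN : 1 ≤ N) (hd : T.det ≠ 0)
    (hL : ∀ v, Lat N P₀ v → Lat N P₀ (T.mulVec v)) (h1 : ∀ v, |h v| ≤ 1)
    (hs : ∀ v, h (T.mulVec v) = - h v) {R : ℕ} (hR : 1 ≤ R)
    (hTR : ∀ v X, v ∈ sq X → T.mulVec v ∈ sq (R * X)) (ε : ℝ) (hε : 0 < ε) :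
    ∃ X₀ : ℕ, ∀ X : ℕ, X₀ ≤ X → |∑ v ∈ LX N P₀ X, h v| ≤
      (1 - 2 * (1 - 1 / (((|T.det| : ℤ) : ℝ))) / (R : ℝ) ^ 2 + ε) * (LX N P₀ X).card := by
  have hN0 : (0 : ℝ) < N := by exact_mod_cast hN
  have hR0 : (0 : ℝ) < R := by exact_mod_cast hR
  set m : ℝ := ((|T.det| : ℤ) : ℝ) with hmdef
  have hma : |(T.det : ℝ)| = m := by rw [hmdef]; push_cast; rfl
  have hm0 : 0 < m := by rw [← hma, abs_pos]; exact_mod_cast hd
  set κ : ℝ := 4 / (N : ℝ) ^ 2 with hκ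
  have hκ0 : 0 < κ := by positivity
  have hA := tendsto_LX (P₀ := P₀) hN
  rw [← hκ] at hA
  have hB := tendsto_ptsL N P₀ T hN hd
  rw [hma] at hB
  have hA' := tendsto_comp_div (g := fun X => ((LX N P₀ X).card : ℝ)) hR hA
  have hB' := tendsto_comp_div (g := fun X => (Nat.card (ptsL N P₀ T X) : ℝ)) hR hB
  have hlim : Tendsto (fun X : ℕ => ((LX N P₀ X).card : ℝ) / (X : ℝ) ^ 2 -
      2 * (((LX N P₀ (X / R)).card : ℝ) / (X : ℝ) ^ 2 - (Nat.card (ptsL N P₀ T (X / R)) : ℝ) / (X : ℝ) ^ 2)) atTop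
      (𝓝 (κ - 2 * (κ / (R : ℝ) ^ 2 - 4 / ((N : ℝ) ^ 2 * m) / (R : ℝ) ^ 2))) :=
    hA.sub ((hA'.sub hB').const_mul 2)
  have hR2 := hA.const_mul (1 - 2 * (1 - 1 / m) / (R : ℝ) ^ 2 + ε)
  have hval : κ - 2 * (κ / (R : ℝ) ^ 2 - 4 / ((N : ℝ) ^ 2 * m) / (R : ℝ) ^ 2) <
      (1 - 2 * (1 - 1 / m) / (R : ℝ) ^ 2 + ε) * κ := by
    have e : κ - 2 * (κ / (R : ℝ) ^ 2 - 4 / ((N : ℝ) ^ 2 * m) / (R : ℝ) ^ 2) =
        (1 - 2 * (1 - 1 / m) / (R : ℝ) ^ 2) * κ := by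
      rw [hκ]; field_simp
    rw [e, add_mul]
    have := mul_pos hε hκ0
    linarith
  have hev := ((hlim.sub hR2).eventually (gt_mem_nhds (sub_neg.2 hval))).and (eventually_ge_atTop 1)
  obtain ⟨X₀, hX₀⟩ := eventually_atTop.1 hev
  refine ⟨X₀, fun X hX => ?_⟩
  obtain ⟨hb, hX1⟩ := hX₀ X hX
  have hX0 : (0 : ℝ) < (X : ℝ) ^ 2 := by
    have : (1 : ℝ) ≤ X := by exact_mod_cast hX1
    positivity
  have hsum := sum_le hd hL h1 hs hTR X
  rw [card_D hd hL] at hsum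
  have e3 : ((LX N P₀ X).card : ℝ) / (X : ℝ) ^ 2 -
      2 * (((LX N P₀ (X / R)).card : ℝ) / (X : ℝ) ^ 2 - (Nat.card (ptsL N P₀ T (X / R)) : ℝ) / (X : ℝ) ^ 2) -
      (1 - 2 * (1 - 1 / m) / (R : ℝ) ^ 2 + ε) * (((LX N P₀ X).card : ℝ) / (X : ℝ) ^ 2) =
      (((LX N P₀ X).card : ℝ) - 2 * ((LX N P₀ (X / R)).card - (Nat.card (ptsL N P₀ T (X / R)) : ℝ)) -
        (1 - 2 * (1 - 1 / m) / (R : ℝ) ^ 2 + ε) * (LX N P₀ X).card) / (X : ℝ) ^ 2 := by
    field_simp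
  rw [e3, div_lt_iff₀ hX0, zero_mul] at hb
  linarith

end Pool.Agent.Helper81.SF
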